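import Pool.Agent.W606.PS.Stm

/-!
Project PS, part UNION: from the components to the whole graph.
-/

set_option autoImplicit false

open Set Relation

namespace Pool.Agent.W377.PS.Union

open Pool.Agent.W606.PS

theorem main : S_UNION := by
  classical
  intro V _ G M c h
  choose P FP rk C part lev h1 h2 h3 h4 h5 h6 h7 using h
  have hsupp : ∀ v : V, v ∈ (G.connectedComponentMk v).supp := fun v => rfl
  obtain ⟨part', hpart'⟩ : ∃ part' : V → Σ K : G.ConnectedComponent, P K,
      ∀ v, part' v = ⟨G.connectedComponentMk v, part _ ⟨v, hsupp v⟩⟩ := ⟨_, fun v => rfl⟩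
  obtain ⟨lev', hlev'⟩ : ∃ lev' : V → ℕ,
      ∀ v, lev' v = lev (G.connectedComponentMk v) ⟨v, hsupp v⟩ := ⟨_, fun v => rfl⟩
  have hp : ∀ (K : G.ConnectedComponent) (v : V) (hv : v ∈ K.supp), part' v = ⟨K, part K ⟨v, hv⟩⟩ := by
    intro K v hv
    have hv' : G.connectedComponentMk v = K := hv
    subst hv'
    exact hpart' v
  have hl : ∀ (K : G.ConnectedComponent) (v : V) (hv : v ∈ K.supp), lev' v = lev K ⟨v, hv⟩ := by
    intro K v hv
    have hv' : G.connectedComponentMk v = K := hv
    subst hv'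
    exact hlev' v
  have hadj : ∀ u v : V, G.Adj u v → u ∈ (G.connectedComponentMk v).supp := fun u v e =>
    SimpleGraph.ConnectedComponent.sound e.reachable
  have hmem : ∀ (K : G.ConnectedComponent) (p q : P K),
      (⟨K, q⟩ : Σ K : G.ConnectedComponent, P K) ∈ (C K p).map ⟨Sigma.mk K, sigma_mk_injective⟩ ↔
        q ∈ C K p := by
    intro K p q
    rw [Finset.mem_map]
    constructor
    · rintro ⟨q', hq', he⟩
      have : q' = q := sigma_mk_injective he
      rwa [← this]
    · intro hq
      exact ⟨q, hq, rfl⟩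
  have : Fintype G.ConnectedComponent := Fintype.ofFinite _
  refine ⟨Σ K : G.ConnectedComponent, P K, inferInstance, fun x => rk x.1 x.2,
    fun x => (C x.1 x.2).map ⟨Sigma.mk x.1, sigma_mk_injective⟩, part', lev', ?_, ?_, ?_, ?_, ?_, ?_, ?_⟩
  · intro v
    rw [hlev']
    exact h1 _ _
  · intro u v e
    rw [hl _ u (hadj u v e), hl _ v (hsupp v)]
    exact h2 _ _ _ (by simpa using e)
  · rintro ⟨K, p⟩ j
    have hsub : {v | part' v = ⟨K, p⟩ ∧ lev' v = j} ⊆
        Subtype.val '' {x : K.supp | part K x = p ∧ lev K x = j} := by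
      rintro v ⟨hv1, hv2⟩
      have hK : v ∈ K.supp := by
        rw [hpart'] at hv1
        exact congrArg Sigma.fst hv1
      refine ⟨⟨v, hK⟩, ⟨?_, ?_⟩, rfl⟩
      · rw [hp K v hK] at hv1
        exact sigma_mk_injective hv1
      · rw [← hl K v hK]
        exact hv2
    calc {v | part' v = ⟨K, p⟩ ∧ lev' v = j}.ncard
        ≤ (Subtype.val '' {x : K.supp | part K x = p ∧ lev K x = j}).ncard :=
          Set.ncard_le_ncard hsub (Set.toFinite _)
      _ ≤ {x : K.supp | part K x = p ∧ lev K x = j}.ncard := Set.ncard_image_le (Set.toFinite _)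
      _ ≤ c := h3 K p j
  · rintro ⟨K, p⟩ q hq
    simp only [Finset.mem_map, Function.Embedding.coeFn_mk] at hq
    obtain ⟨q', hq', rfl⟩ := hq
    exact h4 K p q' hq'
  · rintro ⟨K, p⟩
    rw [Finset.card_map]
    exact h5 K p
  · rintro ⟨K, p⟩ q hq r hr
    simp only [Finset.mem_map, Function.Embedding.coeFn_mk] at hq hr
    obtain ⟨q', hq', rfl⟩ := hq
    obtain ⟨r', hr', rfl⟩ := hr
    rcases h6 K p q' hq' r' hr' with h | h | h
    · left; rw [h]
    · right; left
      exact (hmem K r' q').2 h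
    · right; right
      exact (hmem K q' r').2 h
  · intro u v e
    rw [hp _ u (hadj u v e), hp _ v (hsupp v)]
    rcases h7 _ ⟨u, hadj u v e⟩ ⟨v, hsupp v⟩ (by simpa using e) with h | h | h
    · left; rw [h]
    · right; left
      exact (hmem _ _ _).2 h
    · right; right
      exact (hmem _ _ _).2 h

end Pool.Agent.W377.PS.Union
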